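import Pool.Agent.Q116.ES.Final

/-!
The conjecture of Erdős and Sauer holds asymptotically: for fixed `2 ≤ r < p`, the edge set of every
`r`-graph on `n` vertices has a partition into at most `(1 + o(1)) α(n, p, r)` parts, each of them a
single edge or the edge set of a `K_p^r`.

Proof.

* (Fractional bound.) If `z ≥ 0` is a fractional cover of the copies of `K_p^r` in an `r`-graph `H`
  (the values on the `C = binom(p, r)` edges of each copy have sum at least one), then `H` has a
  `K_p^r`-free subhypergraph with at least `|H| - (C - 1) ∑ z` edges. This extends an argument of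
  Krivelevich for triangles. If `z` vanishes on an edge `e`, each copy containing `e` has another
  edge with `z ≥ 1 / (C - 1)`; delete all these edges, keep `e`, and use induction. If `z > 0` and
  `∑ z < |H| / C`, the cover `(1 + t) z - t / C` is smaller and has a zero for a suitable `t`. If
  `∑ z ≥ |H| / C`, a random subhypergraph is `K_p^r`-free and has at least `|H| / C` edges.
* (Sampling.) Let `z` and `v` be weights of `r`-sets and of `(r + 1)`-sets with
  `∑ z + ∑ v ≥ 1` on each copy of `K_p^r`, where `v` has cost `κ`. Then few `(r + 1)`-sets have a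
  large weight, so most `M`-sets of vertices contain none of them. The fractional bound in these
  `M`-sets and the average over all of them give
  `∑ z ≥ (|H| - α(n, p, r) - o(n ^ r)) / (C - 1)`.
* By the duality theorem of linear programming there is a fractional packing of copies of `K_p^r` of
  this total weight in which the copies through each `(r + 1)`-set have small weight. By the
  theorem of Frankl and Rödl, Pippenger and Kahn (proved in `H248.Nib.nibble_T`) there is a packing
  of almost this size. Its copies and the remaining edges are the parts.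
-/

set_option autoImplicit false

namespace Pool.Agent.Results.MP_1f562f_co.AsymptoticPartition

open Finset

/-- `F` is an `r`-graph on `n` vertices without a copy of `K_p^r`. -/
def IsFree (n p r : ℕ) (F : Finset (Finset (Fin n))) : Prop :=
  (∀ e ∈ F, e.card = r) ∧ ∀ S : Finset (Fin n), S.card = p → ¬ S.powersetCard r ⊆ F

/-- `α(n, p, r)`: the largest number of edges of a `K_p^r`-free `r`-graph on `n` vertices. -/
noncomputable def α (n p r : ℕ) : ℕ :=
  sSup {m | ∃ F : Finset (Finset (Fin n)), IsFree n p r F ∧ F.card = m}

/-- The partition `Q` of the edge set `H` is admissible: each part is a single edge or consists of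
all `r`-subsets of a set of `p` vertices. -/
def Admissible {n : ℕ} (p r : ℕ) {H : Finset (Finset (Fin n))} (Q : Finpartition H) : Prop :=
  ∀ B ∈ Q.parts, B.card = 1 ∨ ∃ S : Finset (Fin n), S.card = p ∧ B = S.powersetCard r

/-- For all `2 ≤ r < p` and `ε > 0` and all large `n`, the edge set of every `r`-graph on `n`
vertices has an admissible partition with at most `(1 + ε) α(n, p, r)` parts. -/
theorem result :
    ∀ r p : ℕ, 2 ≤ r → r < p → ∀ ε : ℝ, 0 < ε → ∃ n₀ : ℕ, ∀ n, n₀ ≤ n →
      ∀ H : Finset (Finset (Fin n)), (∀ e ∈ H, e.card = r) →
        ∃ Q : Finpartition H, Admissible p r Q ∧ (Q.parts.card : ℝ) ≤ (1 + ε) * α n p r := by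
  intro r p hr hp ε hε
  obtain ⟨n₀, h⟩ := Q116.ES.asym_part hr hp hε
  refine ⟨n₀, fun n hn H hH => ?_⟩
  obtain ⟨Q, hQ1, hQ2⟩ := h n hn H hH
  refine ⟨Q, hQ1, hQ2.trans ?_⟩
  have h1 : (Q116.ES.alpha n p r : ℝ) ≤ α n p r := by
    obtain ⟨F, hF, hFc⟩ := Q116.ES.exists_alpha (r := r) (p := p) (by omega) hp n
    have h2 : Q116.ES.alpha n p r ≤ α n p r := by
      unfold α
      refine le_csSup ⟨Fintype.card (Finset (Fin n)), ?_⟩ ⟨F, hF, hFc⟩
      rintro m ⟨F', -, rfl⟩
      exact card_le_univ F'
    exact_mod_cast h2
  exact mul_le_mul_of_nonneg_left h1 (by linarith)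

end Pool.Agent.Results.MP_1f562f_co.AsymptoticPartition
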