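import Pool.Agent.Q116.ES.Final

/-!
The fractional form of the conjecture of Erdős and Sauer, for every `r`-graph `H` and with the
largest size of a `K_p^r`-free subhypergraph of `H` (as in the covering theorem of Lehel) in place
of `α(n, p, r)`.

Proof. Let `C = binom(p, r)`. By the duality theorem of linear programming it suffices to show that
for every fractional cover `z` of the copies of `K_p^r` in `H` there is a `K_p^r`-free
subhypergraph with at least `|H| - (C - 1) ∑ z` edges. If `z` vanishes on an edge `e`, each copy
containing `e` has another edge with `z ≥ 1 / (C - 1)`; delete all these edges, keep `e`, and use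
induction. If `z > 0` and `∑ z < |H| / C`, the cover `(1 + t) z - t / C` is smaller and has a zero
for a suitable `t`. If `∑ z ≥ |H| / C`, a random subhypergraph (the edges with exactly one vertex of
the first colour in a random colouring with `r` colours) is `K_p^r`-free and has at least `|H| / C`
edges on average.
-/

set_option autoImplicit false

namespace Pool.Agent.Results.MP_1f562f_co.FractionalPartition

open Finset

/-- `(x, w)` is a fractional admissible partition of the `r`-graph `H`: nonnegative weights `x` of
the edges and `w` of the copies of `K_p^r` in `H` (given by their sets of vertices) such that for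
each edge the weights of the parts containing it have sum one. -/
def IsFracPartition {n : ℕ} (p r : ℕ) (H : Finset (Finset (Fin n)))
    (x w : Finset (Fin n) → ℝ) : Prop :=
  (∀ e, 0 ≤ x e) ∧ (∀ S, 0 ≤ w S) ∧ (∀ S, w S ≠ 0 → S.card = p ∧ S.powersetCard r ⊆ H) ∧
    ∀ e ∈ H, x e + ∑ S with e ⊆ S, w S = 1

/-- Every `r`-graph `H` has a `K_p^r`-free subhypergraph `F` and a fractional admissible partition
of total weight at most `|F|`. -/
theorem result :
    ∀ n r p : ℕ, 2 ≤ r → r < p → ∀ H : Finset (Finset (Fin n)), (∀ e ∈ H, e.card = r) →
      ∃ (x w : Finset (Fin n) → ℝ) (F : Finset (Finset (Fin n))), IsFracPartition p r H x w ∧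
        F ⊆ H ∧ (∀ S : Finset (Fin n), S.card = p → ¬ S.powersetCard r ⊆ F) ∧
        ∑ e ∈ H, x e + ∑ S, w S ≤ F.card := by
  intro n r p hr hp H hH
  obtain ⟨x, w, h1, h2, h3, h4, F, h5, h6, h7⟩ := Q116.ES.frac_part hr hp H hH
  exact ⟨x, w, F, ⟨h1, h2, h3, h4⟩, h5, h6, h7⟩

end Pool.Agent.Results.MP_1f562f_co.FractionalPartition
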